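import Pool.Agent.N52.ST.Stm

/-!
# ST/INV: a block diagonal element made from projections which are moved almost monotonically

Project ST (helper52), part INV (helper849).
-/

set_option autoImplicit false

namespace Pool.Agent.N849.ST

open Matrix Finset
open scoped ComplexOrder
open Pool.Agent.W661.RC Pool.Agent.W683.RC

theorem sum_orth {d : ℕ} {J : Type} [Fintype J] {p : J → Mt d} (hp : ∀ j, IsPr (p j))
    (ho : ∀ i j, i ≠ j → p i * p j = 0) (A : J → Mt d) (hA : ∀ j, A j * p j = A j) :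
    hs (∑ j, A j) = ∑ j, hs (A j) := by
  classical
  rw [hs_eq_tr', Matrix.conjTranspose_sum, Finset.sum_mul, tr_sum]
  refine Finset.sum_congr rfl fun i _ => ?_
  rw [Finset.mul_sum, Finset.sum_eq_single_of_mem i (Finset.mem_univ _), hs_eq_tr']
  intro j _ hji
  rw [← hA i, ← hA j, Matrix.conjTranspose_mul, (hp j).1, Matrix.mul_assoc, ← Matrix.mul_assoc (p i),
    ho i j (Ne.symm hji), Matrix.zero_mul, Matrix.mul_zero]

theorem sum_orth' {d : ℕ} {J : Type} [Fintype J] {p : J → Mt d} (hp : ∀ j, IsPr (p j))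
    (ho : ∀ i j, i ≠ j → p i * p j = 0) (A : J → Mt d) (hA : ∀ j, p j * A j = A j) :
    hs (∑ j, A j) = ∑ j, hs (A j) := by
  rw [← hs_conjTranspose, Matrix.conjTranspose_sum, sum_orth hp ho (fun j => (A j)ᴴ) fun j => ?_]
  · exact Finset.sum_congr rfl fun j _ => hs_conjTranspose _
  · have h := congrArg Matrix.conjTranspose (hA j)
    rwa [Matrix.conjTranspose_mul, (hp j).1] at h

theorem sum_tr_le {d : ℕ} {J : Type} [Fintype J] {p : J → Mt d} (hp : ∀ j, IsPr (p j))
    (ho : ∀ i j, i ≠ j → p i * p j = 0) : ∑ j, tr (p j) ≤ d := by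
  classical
  have h1 : IsPr (∑ j, p j) := by
    refine ⟨?_, ?_⟩
    · rw [Matrix.conjTranspose_sum]
      exact Finset.sum_congr rfl fun j _ => (hp j).1
    · rw [Finset.sum_mul]
      refine Finset.sum_congr rfl fun i _ => ?_
      rw [Finset.mul_sum, Finset.sum_eq_single_of_mem i (Finset.mem_univ _)]
      · exact (hp i).2
      · intro j _ hji
        exact ho i j (Ne.symm hji)
  rw [← tr_sum, ← tr_one d]
  exact Le_tr (pr_le_one h1)

/-- the estimate for one piece -/
theorem piece {d : ℕ} {p Z Z' u : Mt d} (hp : IsPr p) (hZ : IsPr Z) (hZ' : IsPr Z')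
    (hZZ : Z' * Z = Z) (hu : uᴴ * u = 1) :
    hs ((u * Z - Z * u) * p) ≤
      2 * (hs ((1 - Z') * u * Z * p) + 4 * tr (p * (Z' - Z)) + 4 * hs (u * p - p * u) +
        2 * hs (Z * p - p * Z)) + hs (u * p - p * u) +
      2 * (√(tr p) * √(hs (u * p - p * u))) + 4 * (√(tr p) * √(hs (Z * p - p * Z))) := by
  have hcZ := pr_compl hZ
  have hcZ' := pr_compl hZ'
  have hpt : 0 ≤ tr p := pr_tr_nonneg hp
  -- the two parts
  have e0 : hs ((u * Z - Z * u) * p) = hs ((1 - Z) * u * Z * p) + hs (Z * u * (1 - Z) * p) := by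
    rw [hs_pyth_left hZ, add_comm]
    congr 1
    · congr 1
      have hz0 : (1 - Z) * Z = 0 := by rw [Matrix.sub_mul, Matrix.one_mul, hZ.2, sub_self]
      have : (1 - Z) * ((u * Z - Z * u) * p) = (1 - Z) * u * Z * p - ((1 - Z) * Z) * u * p := by
        noncomm_ring
      rw [this, hz0, Matrix.zero_mul, Matrix.zero_mul, sub_zero]
    · rw [← hs_neg]
      congr 1
      have : -(Z * ((u * Z - Z * u) * p)) = (Z * Z) * u * p - Z * u * Z * p := by noncomm_ring
      rw [this, hZ.2]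
      noncomm_ring
  -- F
  have hF : hs ((1 - Z) * u * Z * p) ≤ hs ((1 - Z') * u * Z * p) + 4 * tr (p * (Z' - Z)) +
      4 * hs (u * p - p * u) + 2 * hs (Z * p - p * Z) := by
    have f1 : hs ((1 - Z) * u * Z * p) = hs ((Z' - Z) * u * Z * p) + hs ((1 - Z') * u * Z * p) := by
      rw [hs_pyth_left hZ']
      congr 1
      · congr 1
        have : Z' * ((1 - Z) * u * Z * p) = (Z' - Z' * Z) * u * Z * p := by noncomm_ring
        rw [this, hZZ]
      · congr 1
        have : (1 - Z') * ((1 - Z) * u * Z * p) = (1 - Z' - Z + Z' * Z) * u * Z * p := by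
          noncomm_ring
        rw [this, hZZ, sub_add_cancel]
    have hW : IsPr (Z' - Z) := pr_sub hZ hZ' hZZ
    have f2 : hs ((Z' - Z) * u * Z * p) ≤ 2 * hs ((Z' - Z) * u * p) + 2 * hs (Z * p - p * Z) := by
      have : (Z' - Z) * u * Z * p = (Z' - Z) * u * p * Z + (Z' - Z) * (u * (Z * p - p * Z)) := by
        noncomm_ring
      rw [this]
      have g1 := hs_add_le ((Z' - Z) * u * p * Z) ((Z' - Z) * (u * (Z * p - p * Z)))
      have g2 := hs_mul_pr_le_self hZ ((Z' - Z) * u * p)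
      have g3 := hs_pr_mul_le_self hW (u * (Z * p - p * Z))
      rw [hs_unit_mul hu] at g3
      linarith
    have f3 : hs ((Z' - Z) * u * p) ≤ 2 * tr (p * (Z' - Z)) + 2 * hs (u * p - p * u) := by
      have : (Z' - Z) * u * p = (Z' - Z) * p * u + (Z' - Z) * (u * p - p * u) := by noncomm_ring
      rw [this]
      have g1 := hs_add_le ((Z' - Z) * p * u) ((Z' - Z) * (u * p - p * u))
      have g2 := hs_pr_mul_le_self hW (u * p - p * u)
      have g3 : hs ((Z' - Z) * p * u) = tr (p * (Z' - Z)) := by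
        rw [hs_mul_unit hu, hs_eq_tr', Matrix.conjTranspose_mul, hW.1, hp.1]
        have : (Z' - Z) * p * (p * (Z' - Z)) = (Z' - Z) * (p * p * (Z' - Z)) := by noncomm_ring
        rw [this, hp.2, tr_mul_comm, Matrix.mul_assoc, hW.2]
      linarith
    linarith
  -- S
  have hS : hs (Z * u * (1 - Z) * p) ≤ hs ((1 - Z) * u * Z * p) + hs (u * p - p * u) +
      2 * (√(tr p) * √(hs (u * p - p * u))) + 4 * (√(tr p) * √(hs (Z * p - p * Z))) := by
    have s1 : hs (Z * u * Z * p) = hs (Z * p) - hs ((1 - Z) * u * Z * p) := by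
      have g1 := hs_pyth_left hZ (u * Z * p)
      have g2 : hs (u * Z * p) = hs (Z * p) := by rw [Matrix.mul_assoc, hs_unit_mul hu]
      have g3 : Z * (u * Z * p) = Z * u * Z * p := by noncomm_ring
      have g4 : (1 - Z) * (u * Z * p) = (1 - Z) * u * Z * p := by noncomm_ring
      rw [g2, g3, g4] at g1
      linarith
    have hZp : hs (Z * p) ≤ tr p := by
      rw [pr_tr_eq_hs hp]
      exact hs_pr_mul_le_self hZ p
    have s2 : hs (Z * u * p) ≤ hs (Z * p) + 2 * (√(tr p) * √(hs (u * p - p * u))) +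
        hs (u * p - p * u) := by
      have g1 : √(hs (Z * u * p)) ≤ √(hs (Z * p)) + √(hs (u * p - p * u)) := by
        have : Z * u * p = Z * p * u + Z * (u * p - p * u) := by noncomm_ring
        rw [this]
        refine (sqrt_hs_add_le _ _).trans ?_
        rw [hs_mul_unit hu]
        gcongr
        exact hs_pr_mul_le_self hZ _
      have g2 : hs (Z * u * p) ≤ (√(hs (Z * p)) + √(hs (u * p - p * u))) ^ 2 := by
        rw [← Real.sq_sqrt (hs_nonneg (Z * u * p))]
        exact pow_le_pow_left₀ (Real.sqrt_nonneg _) g1 2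
      have g3 : (√(hs (Z * p)) + √(hs (u * p - p * u))) ^ 2 = hs (Z * p) +
          2 * (√(hs (Z * p)) * √(hs (u * p - p * u))) + hs (u * p - p * u) := by
        have a1 := Real.sq_sqrt (hs_nonneg (Z * p))
        have a2 := Real.sq_sqrt (hs_nonneg (u * p - p * u))
        linear_combination a1 + a2
      have g4 : √(hs (Z * p)) * √(hs (u * p - p * u)) ≤ √(tr p) * √(hs (u * p - p * u)) :=
        mul_le_mul_of_nonneg_right (Real.sqrt_le_sqrt hZp) (Real.sqrt_nonneg _)
      linarith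
    -- the cross term
    have s3 : hs (Z * u * p) = hs (Z * u * Z * p) + hs (Z * u * (1 - Z) * p) +
        2 * tr ((Z * u * Z * p)ᴴ * (Z * u * (1 - Z) * p)) := by
      have g1 : Z * u * p = Z * u * Z * p + Z * u * (1 - Z) * p := by noncomm_ring
      rw [g1, hs_eq_tr, Matrix.conjTranspose_add, Matrix.add_mul, Matrix.mul_add, Matrix.mul_add,
        tr_add, tr_add, tr_add, ← hs_eq_tr, ← hs_eq_tr]
      have g2 : tr ((Z * u * (1 - Z) * p)ᴴ * (Z * u * Z * p)) =
          tr ((Z * u * Z * p)ᴴ * (Z * u * (1 - Z) * p)) := by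
        rw [← tr_conjTranspose, Matrix.conjTranspose_mul, Matrix.conjTranspose_conjTranspose]
      rw [g2]
      ring
    set X : Mt d := uᴴ * Z * u with hX
    have s4 : (Z * u * Z * p)ᴴ * (Z * u * (1 - Z) * p) = p * Z * X * (1 - Z) * p := by
      rw [Matrix.conjTranspose_mul, Matrix.conjTranspose_mul, Matrix.conjTranspose_mul, hp.1, hZ.1]
      have : p * (Z * (uᴴ * Z)) * (Z * u * (1 - Z) * p) =
          p * Z * uᴴ * (Z * Z) * u * (1 - Z) * p := by noncomm_ring
      rw [this, hZ.2, hX]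
      noncomm_ring
    have hXc : Le (Xᴴ * X) 1 := by
      have hXp : IsPr X := by
        refine ⟨?_, ?_⟩
        · rw [hX, Matrix.conjTranspose_mul, Matrix.conjTranspose_mul,
            Matrix.conjTranspose_conjTranspose, hZ.1, Matrix.mul_assoc]
        · rw [hX]
          have : uᴴ * Z * u * (uᴴ * Z * u) = uᴴ * Z * (u * uᴴ) * Z * u := by noncomm_ring
          rw [this, unit_symm hu, Matrix.mul_one, Matrix.mul_assoc (uᴴ) Z Z, hZ.2]
      exact pr_sq_le_one hXp
    have s5 : p * Z * X * (1 - Z) * p = (p * Z - Z * p) * (X * ((1 - Z) * p)) +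
        Z * (p * X * (1 - Z) * p) := by noncomm_ring
    have s6 : tr (Z * (p * X * (1 - Z) * p)) = tr (p * X * (1 - Z) * (p * Z - Z * p)) := by
      rw [tr_mul_comm]
      congr 1
      have : p * X * (1 - Z) * (p * Z - Z * p) = p * X * (1 - Z) * p * Z -
          p * X * ((1 - Z) * Z) * p := by noncomm_ring
      rw [this, Matrix.sub_mul, Matrix.one_mul, hZ.2, sub_self, Matrix.mul_zero, Matrix.zero_mul,
        sub_zero]
    have hcomm : hs (p * Z - Z * p) = hs (Z * p - p * Z) := hs_sub_comm _ _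
    have s7 : |tr ((p * Z - Z * p) * (X * ((1 - Z) * p)))| ≤ √(tr p) * √(hs (Z * p - p * Z)) := by
      refine (abs_tr_mul_le _ _).trans ?_
      rw [hcomm, mul_comm]
      refine mul_le_mul_of_nonneg_right (Real.sqrt_le_sqrt ?_) (Real.sqrt_nonneg _)
      refine (hs_mul_le hXc _).trans ?_
      rw [pr_tr_eq_hs hp]
      exact hs_pr_mul_le_self hcZ p
    have s8 : |tr (p * X * (1 - Z) * (p * Z - Z * p))| ≤ √(tr p) * √(hs (Z * p - p * Z)) := by
      refine (abs_tr_mul_le _ _).trans ?_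
      rw [hcomm]
      refine mul_le_mul_of_nonneg_right (Real.sqrt_le_sqrt ?_) (Real.sqrt_nonneg _)
      refine (hs_mul_pr_le_self hcZ _).trans ((hs_mul_le_right hXc _).trans ?_)
      rw [pr_tr_eq_hs hp]
    rw [s4, s5, tr_add, s6] at s3
    rw [abs_le] at s7 s8
    linarith [s7.1, s8.1]
  rw [e0]
  linarith

theorem cs {J : Type} [Fintype J] (a b : J → ℝ) (ha : ∀ j, 0 ≤ a j) (hb : ∀ j, 0 ≤ b j) {A B : ℝ}
    (hA : ∑ j, a j ≤ A) (hB : ∑ j, b j ≤ B) (hB0 : 0 ≤ B) : ∑ j, √(a j) * √(b j) ≤ √(B * A) := by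
  have h1 := Real.sum_sqrt_mul_sqrt_le (Finset.univ : Finset J) ha hb
  refine h1.trans ?_
  rw [Real.sqrt_mul hB0, mul_comm]
  exact mul_le_mul (Real.sqrt_le_sqrt hB) (Real.sqrt_le_sqrt hA) (Real.sqrt_nonneg _)
    (Real.sqrt_nonneg _)

theorem main : Pool.Agent.N52.ST.S_INV := by
  intro d J _ p Z Z' u e hp ho hZ hZ' hZZ hu he h1 h2 h3 h4
  classical
  set P : Mt d := ∑ j, p j * Z j * p j with hP
  have hx : ∀ j, 0 ≤ hs (u * p j - p j * u) := fun j => hs_nonneg _
  have hy : ∀ j, 0 ≤ hs (Z j * p j - p j * Z j) := fun j => hs_nonneg _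
  have ht : ∀ j, 0 ≤ tr (p j) := fun j => pr_tr_nonneg (hp j)
  have htd := sum_tr_le hp ho
  have e0 : u * P - P * u = ∑ j, (u * p j - p j * u) * Z j * p j +
      ∑ j, p j * (u * Z j - Z j * u) * p j + ∑ j, p j * Z j * (u * p j - p j * u) := by
    rw [hP, Finset.mul_sum, Finset.sum_mul, ← Finset.sum_sub_distrib, ← Finset.sum_add_distrib,
      ← Finset.sum_add_distrib]
    refine Finset.sum_congr rfl fun j _ => ?_
    noncomm_ring
  have hA : hs (∑ j, (u * p j - p j * u) * Z j * p j) ≤ e := by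
    rw [sum_orth hp ho _ fun j => by rw [Matrix.mul_assoc, (hp j).2]]
    refine (Finset.sum_le_sum fun j _ => ?_).trans h1
    exact (hs_mul_pr_le_self (hp j) _).trans (hs_mul_pr_le_self (hZ j) _)
  have hC : hs (∑ j, p j * Z j * (u * p j - p j * u)) ≤ e := by
    rw [sum_orth' hp ho _ fun j => by rw [← Matrix.mul_assoc, ← Matrix.mul_assoc, (hp j).2]]
    refine (Finset.sum_le_sum fun j _ => ?_).trans h1
    rw [Matrix.mul_assoc]
    exact (hs_pr_mul_le_self (hp j) _).trans (hs_pr_mul_le_self (hZ j) _)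
  have hB : hs (∑ j, p j * (u * Z j - Z j * u) * p j) ≤
      ∑ j, hs ((u * Z j - Z j * u) * p j) := by
    rw [sum_orth hp ho _ fun j => by rw [Matrix.mul_assoc, (hp j).2]]
    refine Finset.sum_le_sum fun j _ => ?_
    rw [Matrix.mul_assoc]
    exact hs_pr_mul_le_self (hp j) _
  have hB2 : ∑ j, hs ((u * Z j - Z j * u) * p j) ≤
      8 * ∑ j, tr (p j * (Z' j - Z j)) + 15 * e + 6 * √(e * d) := by
    have g1 := Finset.sum_le_sum fun j (_ : j ∈ (Finset.univ : Finset J)) =>
      piece (hp j) (hZ j) (hZ' j) (hZZ j) hu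
    refine g1.trans ?_
    simp only [Finset.sum_add_distrib, ← Finset.mul_sum]
    have g2 := cs _ _ ht hx htd h1 he
    have g3 := cs _ _ ht hy htd h2 he
    linarith
  have hD : 0 ≤ ∑ j, tr (p j * (Z' j - Z j)) := by
    refine Finset.sum_nonneg fun j _ => ?_
    exact tr_mul_nonneg (pr_psd (hp j)) (pr_psd (pr_sub (hZ j) (hZ' j) (hZZ j)))
  have hs0 : 0 ≤ √(e * d) := Real.sqrt_nonneg _
  rw [e0]
  refine (hs_add3_le _ _ _).trans ?_
  linarith

end Pool.Agent.N849.ST
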